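import Pool.Agent.H21.TdGraph

set_option autoImplicit false

namespace Pool.Agent.Results.MP_0479e2_co.OddTotalDomination

/-- `S` is a total dominating set: every vertex has a neighbour in `S` -/
def IsTotalDominatingSet {V : Type*} (G : SimpleGraph V) (S : Finset V) : Prop :=
  ∀ v : V, ∃ u ∈ S, G.Adj v u

/-- the total domination number: the minimum size of a total dominating set -/
noncomputable def totalDominationNumber {V : Type*} (G : SimpleGraph V) : ℕ :=
  sInf {k : ℕ | ∃ S : Finset V, IsTotalDominatingSet G S ∧ S.card = k}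

/-- For every finite bipartite graph `G` without isolated vertices, of order `n` and size `m`,
whose total domination number `γ` is odd and at least `3`,
`m ≤ ⌊((n - γ) (n - γ + 4) + 2 γ - 2) / 4⌋`. -/
theorem result (V : Type*) [Fintype V] (G : SimpleGraph V) (hbip : G.IsBipartite)
    (hiso : ∀ v : V, ∃ w, G.Adj v w) (hodd : Odd (totalDominationNumber G))
    (_h3 : 3 ≤ totalDominationNumber G) :
    ((G.edgeSet.ncard : ℕ) : ℤ) ≤
      ⌊((((Fintype.card V : ℚ) - totalDominationNumber G) *
        ((Fintype.card V : ℚ) - totalDominationNumber G + 4) +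
        2 * totalDominationNumber G - 2) / 4 : ℚ)⌋ := by
  classical
  have hne : {k : ℕ | ∃ S : Finset V, IsTotalDominatingSet G S ∧ S.card = k}.Nonempty :=
    ⟨_, Finset.univ, fun v => by
      obtain ⟨w, hw⟩ := hiso v
      exact ⟨w, Finset.mem_univ _, hw⟩, rfl⟩
  have h := Pool.Agent.H21.Td.bound G hbip hiso (totalDominationNumber G) (Nat.sInf_mem hne)
    (fun S hS => Nat.sInf_le ⟨S, hS, rfl⟩) hodd
  rw [Int.le_floor]
  rw [Int.le_ediv_iff_mul_le (by norm_num)] at h
  have hm : G.edgeFinset.card = G.edgeSet.ncard := by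
    rw [← SimpleGraph.coe_edgeFinset, Set.ncard_coe_finset]
  have hm' : (@SimpleGraph.edgeFinset V G _).card = G.edgeSet.ncard := by
    rw [← hm]
  rw [le_div_iff₀ (by norm_num)]
  have h' : ((G.edgeSet.ncard : ℕ) : ℤ) * 4 ≤ ((Fintype.card V : ℤ) - totalDominationNumber G) *
      ((Fintype.card V : ℤ) - totalDominationNumber G + 4) + 2 * totalDominationNumber G - 2 := by
    rw [← hm']
    convert h
  exact_mod_cast h'

end Pool.Agent.Results.MP_0479e2_co.OddTotalDomination
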